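import Mathlib

/-! Background noise cannot always produce third degree inverse stochastic dominance. -/

open MeasureTheory ProbabilityTheory Set Filter Topology intervalIntegral

namespace Pool.Agent.H.MP_dbe012_pr

noncomputable def F (μ : Measure ℝ) : ℕ → ℝ → ℝ
  | 0, p => sInf {x | p ≤ cdf μ x}
  | n + 1, p => ∫ u in (0 : ℝ)..p, F μ n u

noncomputable def mm (μ : Measure ℝ) (k : ℕ) : ℝ := k * ∫ u in (0 : ℝ)..1, F μ 0 u * (1 - u) ^ (k - 1)

noncomputable def H (a t : ℝ) : ℝ := (if t < a then 1 else 0) - if t < 0 then 1 else 0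

lemma H_eq (a : ℝ) : H a = fun t => (Ico 0 a).indicator 1 t - (Ico a 0).indicator 1 t := by
  ext t
  simp only [H, indicator_apply, mem_Ico, Pi.one_apply, ← not_lt]
  by_cases u : t < a <;> by_cases v : t < 0 <;> simp [u, v]

lemma ind_int (a b : ℝ) : Integrable ((Ico a b).indicator (1 : ℝ → ℝ)) :=
  (integrable_indicator_iff measurableSet_Ico).2 (integrableOn_const measure_Ico_lt_top.ne)

lemma H_int (a : ℝ) : Integrable (H a) ∧ ∫ t, H a t = a ∧ ∫ t, ‖H a t‖ ≤ 2 * |a| := by
  rw [H_eq]
  refine ⟨(ind_int _ _).sub (ind_int _ _), ?_, ?_⟩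
  · rw [integral_sub (ind_int _ _) (ind_int _ _), integral_indicator_one measurableSet_Ico,
      integral_indicator_one measurableSet_Ico]
    rcases le_total a 0 with h | h <;> simp [h]
  · refine (integral_mono ((ind_int _ _).sub (ind_int _ _)).norm ((ind_int 0 a).add (ind_int a 0)) fun t => ?_).trans ?_
    · simp only [indicator_apply, Pi.add_apply, Pi.sub_apply, Pi.one_apply]
      split_ifs <;> norm_num
    · rw [integral_add' (ind_int _ _) (ind_int _ _), integral_indicator_one measurableSet_Ico,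
        integral_indicator_one measurableSet_Ico]
      rcases le_total a 0 with h | h <;> simp [h, abs_of_nonneg, abs_of_nonpos] <;> linarith

variable {μ : Measure ℝ} [IsProbabilityMeasure μ]

lemma gal {u : ℝ} (h : u ∈ Ioo (0 : ℝ) 1) (t : ℝ) : F μ 0 u ≤ t ↔ u ≤ cdf μ t := by
  obtain ⟨b, hb⟩ := eventually_atBot.1 ((tendsto_cdf_atBot μ).eventually_lt_const h.1)
  have B : BddBelow {x | u ≤ cdf μ x} := ⟨b, fun x t => not_lt.1 fun l => (hb x l.le).not_ge t⟩
  refine ⟨fun l => ?_, fun l => csInf_le B l⟩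
  refine ge_of_tendsto (((cdf μ).right_continuous t).mono Ioi_subset_Ici_self).tendsto
    (eventually_mem_nhdsWithin.mono fun y r => ?_)
  obtain ⟨x, a, b⟩ := exists_lt_of_csInf_lt (s := {x | u ≤ cdf μ x})
    ⟨_, ((tendsto_cdf_atTop μ).eventually_const_lt h.2).exists.choose_spec.le⟩ (l.trans_lt r)
  exact a.trans (monotone_cdf μ b.le)

lemma qi (h : Integrable id μ) : IntegrableOn (F μ 0) (Ioo 0 1) := by
  have m : AEMeasurable (F μ 0) (volume.restrict (Ioo 0 1)) := aemeasurable_restrict_of_monotoneOn measurableSet_Ioo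
    fun u a v b l => (gal a _).2 (l.trans ((gal b _).1 le_rfl))
  have e : μ = (volume.restrict (Ioo 0 1)).map (F μ 0) := Measure.ext_of_Iic _ _ fun t => by
    rw [Measure.map_apply_of_aemeasurable m measurableSet_Iic, Measure.restrict_apply' measurableSet_Ioo,
      show F μ 0 ⁻¹' Iic t ∩ Ioo 0 1 = Ioc 0 (cdf μ t) \ {1} from ?_, measure_sdiff_null (measure_singleton _),
      Real.volume_Ioc, sub_zero, ofReal_cdf]
    ext u
    exact ⟨fun ⟨a, b⟩ => ⟨⟨b.1, (gal b t).1 a⟩, b.2.ne⟩, fun ⟨a, b⟩ =>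
      have c : u ∈ Ioo (0 : ℝ) 1 := ⟨a.1, (a.2.trans (cdf_le_one μ t)).lt_of_ne b⟩
      ⟨(gal c t).2 a.2, c⟩⟩
  rw [e] at h
  exact (integrable_map_measure aestronglyMeasurable_id m).1 h

lemma mmJ (h : Integrable id μ) (k : ℕ) : Integrable (fun t => (1 - cdf μ t) ^ (k + 1) - if t < 0 then 1 else 0) ∧
    mm μ (k + 1) = ∫ t, (1 - cdf μ t) ^ (k + 1) - if t < 0 then 1 else 0 := by
  let G : ℝ → ℝ → ℝ := fun u t => (k + 1) * (1 - u) ^ k * ((if cdf μ t < u then 1 else 0) - if t < 0 then 1 else 0)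
  have e (u) (a : u ∈ Ioo (0 : ℝ) 1) : G u = fun t => (k + 1) * (1 - u) ^ k * H (F μ 0 u) t := by
    ext t
    simp only [G, H, ← not_le, gal a]
  have mG : Measurable (Function.uncurry G) := by
    have := (monotone_cdf μ).measurable
    refine .mul (by fun_prop) (.sub (.ite (measurableSet_lt (by fun_prop) (by fun_prop)) (by fun_prop) (by fun_prop))
      (.ite (measurableSet_lt (by fun_prop) (by fun_prop)) (by fun_prop) (by fun_prop)))
  have I : Integrable (Function.uncurry G) ((volume.restrict (Ioo 0 1)).prod volume) := by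
    refine (integrable_prod_iff mG.aestronglyMeasurable).2 ⟨(ae_restrict_mem measurableSet_Ioo).mono fun u a => ?_,
      ((qi h).norm.const_mul ((k + 1) * 2)).mono' mG.aestronglyMeasurable.norm.integral_prod_right'
        ((ae_restrict_mem measurableSet_Ioo).mono fun u a => ?_)⟩
    · simp only [Function.uncurry_apply_pair, e u a]
      exact (H_int _).1.const_mul _
    · simp only [Function.uncurry_apply_pair, e u a, norm_mul, MeasureTheory.integral_const_mul]
      have N : 0 ≤ ∫ t, ‖H (F μ 0 u) t‖ := MeasureTheory.integral_nonneg fun _ => norm_nonneg _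
      have K : (0 : ℝ) ≤ k + 1 := by positivity
      simp only [norm_norm, norm_mul, Real.norm_of_nonneg K, Real.norm_of_nonneg N, mul_assoc _ (2 : ℝ)]
      refine mul_le_mul (mul_le_of_le_one_right K ?_) (H_int _).2.2 N K
      rw [norm_pow, Real.norm_of_nonneg (by linarith [a.2])]
      exact pow_le_one₀ (by linarith [a.2]) (by linarith [a.1])
  have p (c) : ∫ u in Ioo c 1, (k + 1 : ℝ) * (1 - u) ^ k = (1 - min c 1) ^ (k + 1) := by
    rcases le_total c 1 with l | l
    · rw [← integral_Ioc_eq_integral_Ioo, ← integral_of_le l, intervalIntegral.integral_const_mul,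
        integral_comp_sub_left (fun u => u ^ k), integral_pow, min_eq_left l]
      field_simp
      simp
    · simp [l]
  have r (t) : ∫ u in Ioo 0 1, G u t = (1 - cdf μ t) ^ (k + 1) - if t < 0 then 1 else 0 := by
    have c : IntegrableOn (fun u : ℝ => (k + 1 : ℝ) * (1 - u) ^ k) (Ioo 0 1) :=
      (Continuous.integrableOn_Icc (by fun_prop)).mono_set Ioo_subset_Icc_self
    have d : (fun u => G u t) = fun u => (Ioi (cdf μ t)).indicator (fun u : ℝ => (k + 1 : ℝ) * (1 - u) ^ k) u -
        (k + 1) * (1 - u) ^ k * if t < 0 then 1 else 0 := by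
      ext u
      simp only [G, indicator_apply, mem_Ioi, mul_sub]
      split_ifs <;> simp
    rw [d, integral_sub (c.indicator measurableSet_Ioi) (c.mul_const _), setIntegral_indicator measurableSet_Ioi,
      MeasureTheory.integral_mul_const, p, Ioo_inter_Ioi, p, max_eq_right (cdf_nonneg μ t), min_eq_left (cdf_le_one μ t)]
    simp
  refine ⟨by simpa only [Function.uncurry_apply_pair, r] using I.integral_prod_right, ?_⟩
  simp only [← r]
  rw [← integral_integral_swap I, mm, integral_of_le zero_le_one, integral_Ioc_eq_integral_Ioo,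
    ← MeasureTheory.integral_const_mul]
  refine setIntegral_congr_fun measurableSet_Ioo fun u a => ?_
  simp only [e u a, MeasureTheory.integral_const_mul, (H_int _).2.1, add_tsub_cancel_right]
  push_cast
  ring

lemma parts {f g g' : ℝ → ℝ} (h : IntervalIntegrable f volume 0 1) (c : ContDiff ℝ 1 g) (d : ∀ x, HasDerivAt g (-g' x) x)
    (e : g 1 = 0) : ∫ x in (0 : ℝ)..1, g' x * ∫ u in (0 : ℝ)..x, f u = ∫ x in (0 : ℝ)..1, g x * f x := by
  have := c.contDiffOn.absolutelyContinuousOnInterval.integral_mul_deriv_eq_deriv_mul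
    (h.absolutelyContinuousOnInterval_intervalIntegral left_mem_uIcc)
  simp only [(d _).deriv, e, neg_mul, intervalIntegral.integral_neg, integral_same, mul_zero, zero_mul, sub_zero,
    zero_sub, neg_neg] at this
  rw [← this]
  refine intervalIntegral.integral_congr_ae (h.ae_hasDerivAt_integral.mono fun x a b => ?_)
  rw [(a (uIoc_subset_uIcc b) 0 left_mem_uIcc).deriv]

lemma fi (h : Integrable id μ) : ∀ n, IntervalIntegrable (F μ n) volume 0 1
  | 0 => (intervalIntegrable_iff_integrableOn_Ioo_of_le zero_le_one).2 (qi h)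
  | n + 1 => (continuousOn_primitive_interval' (fi h n) left_mem_uIcc).intervalIntegrable

lemma F3 (h : Integrable id μ) : 6 * ∫ p in (0 : ℝ)..1, F μ 2 p = mm μ 3 := by
  have a := parts (g := fun x => 1 - x) (g' := fun _ => 1) (fi h 1) (by fun_prop)
    (fun x => (hasDerivAt_id x).const_sub 1) (by simp)
  have b := parts (g := fun x => (1 - x) ^ 2 / 2) (g' := fun x => 1 - x) (fi h 0) (by fun_prop)
    (fun x => ((((hasDerivAt_id x).const_sub 1).pow 2).div_const 2).congr_deriv (by simp; ring)) (by simp)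
  simp only [one_mul] at a
  refine (congrArg (6 * ·) (a.trans b)).trans ?_
  simp only [mm, div_mul_eq_mul_div, intervalIntegral.integral_div, mul_comm (F μ 0 _)]
  norm_num
  ring

noncomputable def mix (a b : ℝ) : Measure ℝ := ENNReal.ofReal (2 / 3) • .dirac a + ENNReal.ofReal (1 / 3) • .dirac b

instance (a b : ℝ) : IsProbabilityMeasure (mix a b) :=
  ⟨by simp only [mix, Measure.add_apply, Measure.smul_apply, measure_univ, smul_eq_mul, mul_one]
      rw [← ENNReal.ofReal_add (by norm_num) (by norm_num)]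
      norm_num⟩

lemma conv_eq (a b : ℝ) : mix a b ∗ μ =
    ENNReal.ofReal (2 / 3) • μ.map (a + ·) + ENNReal.ofReal (1 / 3) • μ.map (b + ·) := by
  rw [mix, Measure.add_conv, Measure.conv_smul_left, Measure.conv_smul_left, Measure.dirac_conv, Measure.dirac_conv]

lemma conv_int (h : Integrable id μ) (a b : ℝ) : Integrable id (mix a b ∗ μ) := by
  have (c : ℝ) : Integrable id (μ.map (c + ·)) :=
    (integrable_map_measure aestronglyMeasurable_id (by fun_prop)).2 ((integrable_const c).add h)
  rw [conv_eq]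
  exact ((this a).smul_measure ENNReal.ofReal_ne_top).add_measure ((this b).smul_measure ENNReal.ofReal_ne_top)

lemma conv_cdf (a b t : ℝ) : cdf (mix a b ∗ μ) t = 2 / 3 * cdf μ (t - a) + 1 / 3 * cdf μ (t - b) := by
  rw [cdf_eq_real, cdf_eq_real, cdf_eq_real, conv_eq, measureReal_add_apply
    (ENNReal.mul_ne_top ENNReal.ofReal_ne_top (measure_ne_top _ _))
    (ENNReal.mul_ne_top ENNReal.ofReal_ne_top (measure_ne_top _ _)),
    measureReal_ennreal_smul_apply, measureReal_ennreal_smul_apply, map_measureReal_apply (by fun_prop) measurableSet_Iic,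
    map_measureReal_apply (by fun_prop) measurableSet_Iic, preimage_const_add_Iic, preimage_const_add_Iic,
    ENNReal.toReal_ofReal (by norm_num), ENNReal.toReal_ofReal (by norm_num)]

lemma shift {S : ℝ → ℝ} (h : Integrable fun t => S t - if t < 0 then 1 else 0) (s : ℝ) :
    Integrable (fun t => S (t - s) - if t < 0 then 1 else 0) ∧
      ∫ t, (S (t - s) - if t < 0 then 1 else 0) = (∫ t, S t - if t < 0 then 1 else 0) + s := by
  have e : (fun t => S (t - s) - if t < 0 then 1 else 0) = fun t => (S (t - s) - if t - s < 0 then 1 else 0) + H s t := by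
    ext t
    simp [H, sub_neg]
  rw [e, integral_add (h.comp_sub_right s) (H_int s).1, (H_int s).2.1,
    integral_sub_right_eq_self (fun t => S t - if t < 0 then 1 else 0)]
  exact ⟨(h.comp_sub_right s).add (H_int s).1, rfl⟩

lemma key (h : Integrable id μ) : mm (mix 1 (-2) ∗ μ) 3 < mm (mix (-1) 2 ∗ μ) 3 := by
  obtain ⟨i0, -⟩ := mmJ h 2
  obtain ⟨i1, e1⟩ := mmJ (conv_int h (-1) 2) 2
  obtain ⟨i2, e2⟩ := mmJ (conv_int h 1 (-2)) 2
  obtain ⟨ib, eb⟩ := shift i0 (-1)
  obtain ⟨ic, ec⟩ := shift i0 2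
  obtain ⟨i3, e3⟩ := shift i2 1
  have I := (i1.sub i3).add ((ic.sub ib).const_mul (1 / 3))
  have J := integral_add' (i1.sub i3) ((ic.sub ib).const_mul (1 / 3))
  rw [integral_sub' i1 i3, MeasureTheory.integral_const_mul, integral_sub' ic ib, eb, ec, e3, ← e1, ← e2] at J
  generalize hq : (_ + _ : ℝ → ℝ) = q at I J
  obtain rfl : q = fun t => 2 / 27 * (cdf μ (t - -1) - cdf μ (t - 2)) ^ 3 := by
    ext t
    simp only [← hq, Pi.add_apply, Pi.sub_apply, conv_cdf, show t - 1 - 1 = t - 2 by ring,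
      show t - 1 - -2 = t - -1 by ring]
    ring
  have n (t) : 0 ≤ 2 / 27 * (cdf μ (t - -1) - cdf μ (t - 2)) ^ 3 :=
    mul_nonneg (by norm_num) (pow_nonneg (sub_nonneg.2 (monotone_cdf μ (by linarith))) _)
  refine lt_of_le_of_ne (by linarith [MeasureTheory.integral_nonneg (μ := volume) (Pi.le_def.2 n)]) fun e => ?_
  have z := (integral_eq_zero_iff_of_nonneg n I).1 (by linarith)
  have w : ∫ t, ((1 - cdf μ (t - -1)) ^ (2 + 1) - if t < 0 then 1 else 0) =
      ∫ t, ((1 - cdf μ (t - 2)) ^ (2 + 1) - if t < 0 then 1 else 0) := MeasureTheory.integral_congr_ae (z.mono fun t r => by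
    simp only [Pi.zero_apply, mul_eq_zero, pow_eq_zero_iff three_ne_zero, sub_eq_zero] at r
    simp only [r.resolve_left (by norm_num)])
  linarith

lemma mix_int (a b : ℝ) : Integrable id (mix a b) := by
  simpa using conv_int (μ := .dirac 0) (integrable_dirac (by simp)) a b

lemma mix_cdf (a b t : ℝ) : cdf (mix a b) t = 2 / 3 * (if a ≤ t then 1 else 0) + 1 / 3 * if b ≤ t then 1 else 0 := by
  have := conv_cdf (μ := .dirac 0) a b t
  simpa [cdf_eq_real, Measure.real, indicator_apply, apply_ite ENNReal.toReal] using this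

lemma mix_mm {a b : ℝ} (s c d : ℝ) (k : ℕ) (l : ∀ t, (1 - cdf (mix a b) t) ^ (k + 1) =
    (1 - s) * (if t < c then 1 else 0) + s * if t < d then 1 else 0) : mm (mix a b) (k + 1) = (1 - s) * c + s * d := by
  rw [(mmJ (mix_int a b) k).2, ← (H_int c).2.1, ← (H_int d).2.1, ← MeasureTheory.integral_const_mul,
    ← MeasureTheory.integral_const_mul, ← integral_add ((H_int _).1.const_mul _) ((H_int _).1.const_mul _)]
  refine congrArg _ (funext fun t => ?_)
  rw [l, H, H]
  ring

theorem main : ∃ X Y : Measure ℝ, IsProbabilityMeasure X ∧ IsProbabilityMeasure Y ∧ Integrable id X ∧ Integrable id Y ∧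
    mm X 1 = mm Y 1 ∧ mm X 2 = mm Y 2 ∧ mm Y 3 < mm X 3 ∧ ∀ Z : Measure ℝ, IsProbabilityMeasure Z → Integrable id Z →
      ∃ p ∈ Ioo (0 : ℝ) 1, F (Y ∗ Z) 2 p < F (X ∗ Z) 2 p := by
  have a (k) := mix_mm (a := -1) (b := 2) ((1 / 3) ^ (k + 1)) (-1) 2 k fun t => by
    simp only [mix_cdf, ← not_lt, ite_not]
    split_ifs <;> first | linarith | norm_num
  have b (k) := mix_mm (a := 1) (b := -2) ((2 / 3) ^ (k + 1)) (-2) 1 k fun t => by
    simp only [mix_cdf, ← not_lt, ite_not]
    split_ifs <;> first | linarith | norm_num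
  refine ⟨mix (-1) 2, mix 1 (-2), inferInstance, inferInstance, mix_int _ _, mix_int _ _, by rw [a 0, b 0]; norm_num,
    by rw [a 1, b 1]; norm_num, by rw [a 2, b 2]; norm_num, fun Z _ h => ?_⟩
  by_contra! c
  have := key h
  rw [← F3 (conv_int h _ _), ← F3 (conv_int h _ _)] at this
  linarith [integral_mono_on_of_le_Ioo zero_le_one (fi (conv_int h _ _) 2) (fi (conv_int h _ _) 2) c]

end Pool.Agent.H.MP_dbe012_pr
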